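import Mathlib
import Pool.Agent.Helper65.EU.Robust
import Pool.Graph.R_seed8.H790R3.RB.TCJ
import Pool.Graph.R_pool_sql_team_seeded_5cf16337.K3h78.LF.B2
import Pool.Graph.R_pool_sql_team_seeded_5cf16337.K3h78.LF.B3

/-! Certified maps have Julia sets of area zero. -/

set_option autoImplicit false

open Topology Filter Metric Set MeasureTheory
open scoped OnePoint

namespace Pool.Agent.Helper65.EN

open Pool.Agent.H790R3.RB
open Pool.Agent.W364.NM (ap ad dt ad_ap ap_ad ap_smul ap_ne semi wr_conj exists_pr vne pr_csmul wr_eval)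
open Pool.Agent.Helper65.EU (Into Cert ND_of_sphere wr_smul_zero)
open Pool.Agent.Helper114.Herman (IsRat fatou)
open Pool.Agent.K3h78.LF (Trap Reg Stay rg VV coe_mem_VV)

/-- there is a critical point -/
theorem exists_crit {d : ℕ} (hd : 2 ≤ d) (x : CV d) : ∃ c ∈ sphere (0 : ℂ × ℂ) 1, wr x c = 0 := by
  by_contra hcon
  push Not at hcon
  obtain ⟨W, hW1, hW2, hW3⟩ := (WR d x hd).2.1
  have h10 : ((1, 0) : ℂ × ℂ) ∈ sphere (0 : ℂ × ℂ) 1 := by
    rw [mem_sphere_zero_iff_norm, Prod.norm_def]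
    simp
  have h1 := hcon _ h10
  rw [← hW3] at h1
  have h2 : W.natDegree = 2 * d - 2 := le_antisymm hW1 (Polynomial.le_natDegree_of_ne_zero h1)
  have h3 : W.degree ≠ 0 := by
    intro h
    have := Polynomial.natDegree_eq_zero_iff_degree_le_zero.2 h.le
    omega
  obtain ⟨ζ, hζ⟩ := IsAlgClosed.exists_root W h3
  have h4 : wr x (ζ, 1) = 0 := by rw [← hW2]; exact hζ
  have hn : ‖((ζ, 1) : ℂ × ℂ)‖ ≠ 0 := norm_ne_zero_iff.2 (vne ζ)
  apply hcon (((‖((ζ, 1) : ℂ × ℂ)‖⁻¹ : ℝ) : ℂ) • ((ζ, 1) : ℂ × ℂ))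
  · rw [mem_sphere_zero_iff_norm, norm_smul, Complex.norm_real, norm_inv, norm_norm,
      inv_mul_cancel₀ hn]
  · exact wr_smul_zero hd _ h4

/-- the closed discs -/
def KK (s : Finset (ℂ × ℝ)) : Set (OnePoint ℂ) :=
  ⋃ i ∈ s, (fun z : ℂ => (z : OnePoint ℂ)) '' closedBall i.1 i.2

/-- the open discs -/
def II (s : Finset (ℂ × ℝ)) : Set (OnePoint ℂ) :=
  ⋃ i ∈ s, (fun z : ℂ => (z : OnePoint ℂ)) '' ball i.1 i.2

theorem KK_closed (s : Finset (ℂ × ℝ)) : IsClosed (KK s) := by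
  unfold KK
  apply isClosed_biUnion_finset
  intro i _
  exact ((isCompact_closedBall i.1 i.2).image OnePoint.continuous_coe).isClosed

theorem II_open (s : Finset (ℂ × ℝ)) : IsOpen (II s) := by
  unfold II
  apply isOpen_biUnion
  intro i _
  exact (OnePoint.isOpenEmbedding_coe (X := ℂ)).isOpenMap _ isOpen_ball

theorem II_sub (s : Finset (ℂ × ℝ)) : II s ⊆ KK s := by
  unfold II KK
  apply iUnion₂_mono
  intro i _
  exact image_mono ball_subset_closedBall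

theorem KK_infty (s : Finset (ℂ × ℝ)) : (∞ : OnePoint ℂ) ∉ KK s := by
  unfold KK
  intro h
  rw [mem_iUnion₂] at h
  obtain ⟨i, _, z, _, hz⟩ := h
  exact OnePoint.coe_ne_infty _ hz

section

variable {d : ℕ} (hd : 2 ≤ d) {s : Finset (ℂ × ℝ)} {x : CV d} (h : Cert s x)

include h in
theorem maps {w : OnePoint ℂ} (hw : w ∈ KK s) : sp x w ∈ II s := by
  unfold KK at hw
  rw [mem_iUnion₂] at hw
  obtain ⟨i, hi, z, hz, rfl⟩ := hw
  have h1 := (h.2.1 i hi z hz).1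
  have hq : (hF x (z, 1)).2 ≠ 0 := by
    intro h0
    have h5 : i.2 * ‖(hF x (z, 1)).2‖ = 0 := by rw [h0, norm_zero, mul_zero]
    rw [h5] at h1
    exact absurd h1 (not_lt.2 (norm_nonneg _))
  have h2 : sp x (z : OnePoint ℂ) = (((hF x (z, 1)).1 / (hF x (z, 1)).2 : ℂ) : OnePoint ℂ) :=
    Pool.Agent.H790R3.RB.SP.pr_ne hq
  simp only
  rw [h2]
  unfold II
  rw [mem_iUnion₂]
  refine ⟨i, hi, _, ?_, rfl⟩
  rw [mem_ball, dist_eq_norm]
  have h3 : (hF x (z, 1)).1 / (hF x (z, 1)).2 - i.1 =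
      ((hF x (z, 1)).1 - i.1 * (hF x (z, 1)).2) / (hF x (z, 1)).2 := by field_simp
  rw [h3, norm_div, div_lt_iff₀ (norm_pos_iff.2 hq)]
  exact h1

include hd h in
theorem crit_in {p : ℂ × ℂ} (hp : p ≠ 0) (hw : wr x p = 0) :
    ∃ k : ℕ, (sp x)^[k] (pr p) ∈ II s := by
  have hND := ND_of_sphere h.1
  have hn : ‖p‖ ≠ 0 := norm_ne_zero_iff.2 hp
  set a : ℂ := ((‖p‖⁻¹ : ℝ) : ℂ) with ha
  have ha0 : a ≠ 0 := by
    rw [ha, Complex.ofReal_ne_zero]
    exact inv_ne_zero hn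
  have hsph : a • p ∈ sphere (0 : ℂ × ℂ) 1 := by
    rw [mem_sphere_zero_iff_norm, norm_smul, Complex.norm_real, norm_inv, norm_norm,
      inv_mul_cancel₀ hn]
  obtain ⟨k, i, hi, hk⟩ := h.2.2 _ hsph (wr_smul_zero hd a hw)
  refine ⟨k, ?_⟩
  set q := (hF x)^[k] (a • p) with hq
  have hq2 : 0 < i.2 * ‖q.2‖ := lt_of_le_of_lt (norm_nonneg _) hk
  have hq20 : q.2 ≠ 0 := by
    intro h0
    rw [h0, norm_zero, mul_zero] at hq2
    exact lt_irrefl _ hq2
  have e1 := (SP d x (by omega) hND).2.1 (a • p) (smul_ne_zero ha0 hp) k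
  rw [pr_csmul ha0] at e1
  rw [e1, ← hq, Pool.Agent.H790R3.RB.SP.pr_ne hq20]
  unfold II
  rw [mem_iUnion₂]
  refine ⟨i, hi, _, ?_, rfl⟩
  rw [mem_ball, dist_eq_norm]
  have : q.1 / q.2 - i.1 = (q.1 - i.1 * q.2) / q.2 := by field_simp
  rw [this, norm_div, div_lt_iff₀ (norm_pos_iff.2 hq20)]
  exact hk

include hd h in
theorem disc_exists : ∃ i ∈ s, 0 < i.2 := by
  obtain ⟨c, hc, hw⟩ := exists_crit hd x
  have hc0 : c ≠ 0 := by
    rintro rfl
    simp at hc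
  obtain ⟨k, hk⟩ := crit_in hd h hc0 hw
  unfold II at hk
  rw [mem_iUnion₂] at hk
  obtain ⟨i, hi, z, hz, -⟩ := hk
  exact ⟨i, hi, dist_nonneg.trans_lt hz⟩

end

/-- the change of coordinates and its image of the certificate -/
structure Setup {d : ℕ} (s : Finset (ℂ × ℝ)) (x y : CV d) (H : OnePoint ℂ ≃ₜ OnePoint ℂ)
    (m : (ℂ × ℂ) × (ℂ × ℂ)) (c : ℂ) : Prop where
  cert : Cert s x
  c0 : c ≠ 0
  dt0 : dt m ≠ 0
  fy : ∀ p, hF y (ap m p) = c • ap m (hF x p)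
  Hpr : ∀ p : ℂ × ℂ, p ≠ 0 → H (pr p) = pr (ap m p)
  ndy : ND y
  inf : (∞ : OnePoint ℂ) ∈ H '' II s
  zero : ((0 : ℂ) : OnePoint ℂ) ∈ H '' II s

/-- the region -/
def XX (s : Finset (ℂ × ℝ)) (H : OnePoint ℂ ≃ₜ OnePoint ℂ) : Set ℂ :=
  {z : ℂ | (z : OnePoint ℂ) ∉ H '' KK s}

section

variable {d : ℕ} (hd : 2 ≤ d) {s : Finset (ℂ × ℝ)} {x y : CV d} {H : OnePoint ℂ ≃ₜ OnePoint ℂ}
  {m : (ℂ × ℂ) × (ℂ × ℂ)} {c : ℂ} (S : Setup s x y H m c)

theorem XX_open (s : Finset (ℂ × ℝ)) (H : OnePoint ℂ ≃ₜ OnePoint ℂ) : IsOpen (XX s H) := by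
  have h1 : IsClosed (H '' KK s) := H.isClosedMap _ (KK_closed s)
  exact h1.isOpen_compl.preimage OnePoint.continuous_coe

theorem XX_closure {z : ℂ} (hz : (z : OnePoint ℂ) ∈ H '' II s) : z ∉ closure (XX s H) := by
  intro h
  have h1 : IsOpen (H '' II s) := H.isOpenMap _ (II_open s)
  have h2 : IsClosed {z : ℂ | (z : OnePoint ℂ) ∉ H '' II s} :=
    h1.isClosed_compl.preimage OnePoint.continuous_coe
  have h3 : XX s H ⊆ {z : ℂ | (z : OnePoint ℂ) ∉ H '' II s} := by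
    intro w hw hcon
    exact hw (image_mono (II_sub s) hcon)
  exact closure_minimal h3 h2 h hz

include S in
theorem ndx : ND x := ND_of_sphere S.cert.1

include hd S in
theorem sy (z : OnePoint ℂ) : sp y (H z) = H (sp x z) :=
  (semi (by omega) (ndx S) S.ndy S.dt0 S.c0 S.fy H S.Hpr z).symm

include hd S in
theorem sy_iter (k : ℕ) (z : OnePoint ℂ) : (sp y)^[k] (H z) = H ((sp x)^[k] z) := by
  induction k with
  | zero => rfl
  | succ k ih => rw [Function.iterate_succ_apply', ih, sy hd S, Function.iterate_succ_apply']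

include hd S in
theorem y_maps {w : OnePoint ℂ} (hw : w ∈ H '' KK s) : sp y w ∈ H '' II s := by
  obtain ⟨z, hz, rfl⟩ := hw
  rw [sy hd S]
  exact ⟨_, maps S.cert hz, rfl⟩

include S in
theorem XX_bdd : ∃ R : ℝ, ∀ z ∈ closure (XX s H), ‖z‖ ≤ R := by
  have h1 : IsOpen (H '' II s) := H.isOpenMap _ (II_open s)
  have h2 : H '' II s ∈ 𝓝 (∞ : OnePoint ℂ) := h1.mem_nhds S.inf
  have h3 : Tendsto (fun z : ℂ => (z : OnePoint ℂ)) (cocompact ℂ) (𝓝 (∞ : OnePoint ℂ)) := by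
    have := OnePoint.tendsto_coe_infty (X := ℂ)
    rwa [Filter.coclosedCompact_eq_cocompact] at this
  have h4 := h3 h2
  rw [mem_map, mem_cocompact] at h4
  obtain ⟨K, hK, hK2⟩ := h4
  obtain ⟨R, hR⟩ := hK.isBounded.exists_norm_le
  refine ⟨R, ?_⟩
  intro z hz
  apply hR
  by_contra hcon
  exact XX_closure (hK2 hcon) hz

theorem XX_nonempty (hm : m.2.1 ≠ 0) (S : Setup s x y H m c) : (XX s H).Nonempty := by
  refine ⟨m.1.1 / m.2.1, ?_⟩
  have h1 : H ∞ = ((m.1.1 / m.2.1 : ℂ) : OnePoint ℂ) := by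
    have h2 := S.Hpr (1, 0) (by simp)
    have h3 : pr ((1, 0) : ℂ × ℂ) = ∞ := Pool.Agent.H790R3.RB.SP.pr_zero rfl
    rw [h3] at h2
    rw [h2]
    have h4 : ap m (1, 0) = (m.1.1, m.2.1) := by
      apply Prod.ext
      · simp [ap]
      · simp [ap]
    rw [h4, Pool.Agent.H790R3.RB.SP.pr_ne (show (m.1.1, m.2.1).2 ≠ 0 from hm)]
  show ((m.1.1 / m.2.1 : ℂ) : OnePoint ℂ) ∉ H '' KK s
  rw [← h1]
  rintro ⟨w, hw, hw2⟩
  rw [H.injective hw2] at hw
  exact KK_infty s hw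

include hd S in
theorem reg_back (z : ℂ) (hz : z ∉ XX s H) : rg (pol y 0) (pol y 1) z ∉ closure (XX s H) := by
  have h1 : (z : OnePoint ℂ) ∈ H '' KK s := by
    by_contra h
    exact hz h
  by_cases hq : (pol y 1).eval z = 0
  · have h2 : rg (pol y 0) (pol y 1) z = 0 := by unfold rg; rw [hq, div_zero]
    rw [h2]
    exact XX_closure S.zero
  · have h2 := PQ.sp_eval y z hq
    have h3 := y_maps hd S h1
    rw [h2] at h3
    exact XX_closure h3

include hd S in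
theorem reg_crit (z : ℂ) (hz : (Pool.Agent.H762R2.Rt.wro (pol y 0) (pol y 1)).eval z = 0) :
    ∃ k, (rg (pol y 0) (pol y 1))^[k] z ∉ XX s H := by
  have h1 : wr y (z, 1) = 0 := by
    rw [wr_eval hd]
    have h2 : (Pool.Agent.H762R2.Rt.wro (pol y 0) (pol y 1)).eval z =
        (Polynomial.derivative (pol y 0)).eval z * (pol y 1).eval z -
        (pol y 0).eval z * (Polynomial.derivative (pol y 1)).eval z := by
      unfold Pool.Agent.H762R2.Rt.wro
      rw [Polynomial.eval_sub, Polynomial.eval_mul, Polynomial.eval_mul]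
    rw [← h2, hz, mul_zero]
  set p : ℂ × ℂ := ap (ad m) (z, 1) with hp
  have hdt : dt (ad m) ≠ 0 := by
    have : dt (ad m) = dt m := by simp only [dt, ad]; ring
    rw [this]
    exact S.dt0
  have hp0 : p ≠ 0 := ap_ne hdt (vne z)
  have h3 : ap m p = dt m • ((z, 1) : ℂ × ℂ) := ad_ap m _
  have h4 : wr x p = 0 := by
    have h5 := wr_conj hd S.dt0 S.fy p
    rw [h3, wr_smul_zero hd _ h1] at h5
    have h6 : c ^ 2 ≠ 0 := pow_ne_zero _ S.c0
    exact (mul_eq_zero.1 h5.symm).resolve_left h6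
  obtain ⟨k, hk⟩ := crit_in hd S.cert hp0 h4
  have h5 : H (pr p) = (z : OnePoint ℂ) := by
    rw [S.Hpr p hp0, h3, pr_csmul S.dt0, Pool.Agent.H790R3.RB.SP.pr_ne (by simp)]
    simp
  have h6 : (sp y)^[k] (z : OnePoint ℂ) ∈ H '' II s := by
    rw [← h5, sy_iter hd S]
    exact ⟨_, hk, rfl⟩
  -- comparison
  by_contra hcon
  push Not at hcon
  have h7 : ∀ j : ℕ, (((rg (pol y 0) (pol y 1))^[j] z : ℂ) : OnePoint ℂ) =
      (sp y)^[j] (z : OnePoint ℂ) := by
    intro j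
    induction j with
    | zero => rfl
    | succ j ih =>
      rw [Function.iterate_succ_apply', Function.iterate_succ_apply', ← ih]
      have hq : (pol y 1).eval ((rg (pol y 0) (pol y 1))^[j] z) ≠ 0 := by
        intro h0
        have h8 := hcon (j + 1)
        rw [Function.iterate_succ_apply'] at h8
        have h9 : rg (pol y 0) (pol y 1) ((rg (pol y 0) (pol y 1))^[j] z) = 0 := by
          show _ / _ = _
          rw [h0, div_zero]
        rw [h9] at h8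
        exact XX_closure S.zero (subset_closure h8)
      rw [PQ.sp_eval y _ hq]
      rfl
  rw [← h7 k] at h6
  exact XX_closure h6 (subset_closure (hcon k))

include hd S in
theorem reg_proper (M : ℝ) : ∃ B : ℝ, ∀ w ∈ closure (XX s H), ∀ z : ℂ,
    ‖(pol y 0).eval z - w * (pol y 1).eval z‖ ≤ M → ‖z‖ ≤ B := by
  obtain ⟨R, hR⟩ := XX_bdd S
  have hcomp : IsCompact (closure (XX s H)) :=
    Metric.isCompact_of_isClosed_isBounded isClosed_closure
      ((isBounded_closedBall (x := (0 : ℂ)) (r := R)).subset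
        fun w hw => mem_closedBall_zero_iff.2 (hR w hw))
  set φ : ℂ × ℂ → ℝ := fun q => ‖(hF y (1, q.2)).1 - q.1 * (hF y (1, q.2)).2‖ with hφ
  have hφc : Continuous φ := by
    have h1 : Continuous (fun q : ℂ × ℂ => hF y (1, q.2)) := by
      have h2 := (hF_contDiff d 1).continuous
      exact h2.comp (by fun_prop : Continuous (fun q : ℂ × ℂ => (y, ((1, q.2) : ℂ × ℂ))))
    exact (h1.fst.sub (continuous_fst.mul h1.snd)).norm
  have hpos : ∀ w ∈ closure (XX s H), 0 < φ (w, 0) := by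
    intro w hw
    rw [hφ]
    simp only
    rw [norm_pos_iff]
    intro h0
    have h1 : sp y (∞ : OnePoint ℂ) ∈ H '' II s := y_maps hd S (image_mono (II_sub s) S.inf)
    have h2 : sp y (∞ : OnePoint ℂ) = pr (hF y (1, 0)) := rfl
    have h3 : hF y (1, 0) ≠ 0 := fun h => by
      have := S.ndy _ h
      simp at this
    have h4 : (hF y (1, 0)).2 ≠ 0 := by
      intro h5
      apply h3
      apply Prod.ext
      · rw [h5, mul_zero, sub_zero] at h0
        exact h0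
      · exact h5
    rw [h2, Pool.Agent.H790R3.RB.SP.pr_ne h4] at h1
    have h5 : (hF y (1, 0)).1 / (hF y (1, 0)).2 = w := by
      rw [div_eq_iff h4]
      exact sub_eq_zero.1 h0
    rw [h5] at h1
    exact XX_closure h1 hw
  -- uniform bound
  have hloc : ∀ w ∈ closure (XX s H), ∃ ε > 0, ∀ᶠ w' in 𝓝 w, ∀ u : ℂ, ‖u‖ ≤ ε → ε ≤ φ (w', u) := by
    intro w hw
    have h1 := hpos w hw
    have h2 : ∀ᶠ q in 𝓝 ((w, 0) : ℂ × ℂ), φ (w, 0) / 2 < φ q :=
      hφc.continuousAt.eventually (lt_mem_nhds (by linarith))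
    obtain ⟨δ, hδ, h3⟩ := Metric.eventually_nhds_iff.1 h2
    refine ⟨min (δ / 2) (φ (w, 0) / 2), by positivity, ?_⟩
    filter_upwards [ball_mem_nhds w hδ] with w' hw' u hu
    refine (min_le_right _ _).trans (h3 ?_).le
    rw [Prod.dist_eq]
    apply max_lt hw'
    rw [dist_zero_right]
    have := hu.trans (min_le_left _ _)
    linarith
  choose! ε hε hev using hloc
  obtain ⟨t, ht, hcov⟩ := hcomp.elim_nhds_subcover (fun w => {w' | ∀ u : ℂ, ‖u‖ ≤ ε w → ε w ≤ φ (w', u)})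
    (fun w hw => hev w hw)
  obtain ⟨e, he, hle⟩ : ∃ e : ℝ, 0 < e ∧ ∀ w ∈ t, e ≤ ε w := by
    rcases t.eq_empty_or_nonempty with h0 | hne
    · exact ⟨1, one_pos, by rw [h0]; simp⟩
    · obtain ⟨w, hw, hw2⟩ := t.exists_min_image ε hne
      exact ⟨ε w, hε w (ht w hw), hw2⟩
  refine ⟨max (max 1 (1 / e)) (M / e), ?_⟩
  intro w hw z hz
  by_contra hcon
  push Not at hcon
  have h1 : 1 < ‖z‖ := ((le_max_left _ _).trans (le_max_left _ _)).trans_lt hcon
  have h2 : 1 / e < ‖z‖ := ((le_max_right _ _).trans (le_max_left _ _)).trans_lt hcon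
  have h3 : M / e < ‖z‖ := (le_max_right _ _).trans_lt hcon
  have hz0 : z ≠ 0 := norm_pos_iff.1 (one_pos.trans h1)
  obtain ⟨w₁, hw₁, h4⟩ := mem_iUnion₂.1 (hcov hw)
  have h5 : e ≤ φ (w, z⁻¹) := by
    apply (hle w₁ hw₁).trans
    apply h4
    apply le_trans _ (hle w₁ hw₁)
    rw [norm_inv]
    rw [div_lt_iff₀ he] at h2
    rw [inv_le_comm₀ (by linarith) he, ← one_div]
    rw [div_le_iff₀ he]
    exact h2.le
  have h6 : hF y (z, 1) = z ^ d • hF y (1, z⁻¹) := by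
    rw [← hF_smul]
    congr 1
    apply Prod.ext
    · simp
    · simp [hz0]
  have h7 : (pol y 0).eval z - w * (pol y 1).eval z =
      z ^ d * ((hF y (1, z⁻¹)).1 - w * (hF y (1, z⁻¹)).2) := by
    have h8 := PQ.hF_one y z
    rw [h6] at h8
    have h9 : (pol y 0).eval z = z ^ d * (hF y (1, z⁻¹)).1 := by
      have := congrArg Prod.fst h8
      exact this.symm
    have h10 : (pol y 1).eval z = z ^ d * (hF y (1, z⁻¹)).2 := by
      have := congrArg Prod.snd h8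
      exact this.symm
    rw [h9, h10]
    ring
  rw [h7, norm_mul, norm_pow] at hz
  have h8 : ‖z‖ ≤ ‖z‖ ^ d := by
    calc ‖z‖ = ‖z‖ ^ 1 := (pow_one _).symm
      _ ≤ ‖z‖ ^ d := pow_le_pow_right₀ h1.le (by omega)
  have h9 : ‖z‖ * e ≤ M := by
    calc ‖z‖ * e ≤ ‖z‖ ^ d * φ (w, z⁻¹) := mul_le_mul h8 h5 he.le (by positivity)
      _ ≤ M := hz
  rw [div_lt_iff₀ he] at h3
  linarith

include hd S in
theorem trap : ∃ R : ℝ, Trap (pol y 0) (pol y 1) (XX s H) R := by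
  obtain ⟨R, hR⟩ := XX_bdd S
  obtain ⟨h1, h2, -⟩ := ((PQ SP) d (by omega)).1 y S.ndy
  have hw : Pool.Agent.H762R2.Rt.wro (pol y 0) (pol y 1) ≠ 0 :=
    Pool.Agent.H762R2.Rt.wro_ne_zero h1 (by omega)
  exact ⟨R, ⟨⟨h1, XX_open s H, fun z hz => hR z (subset_closure hz), XX_closure S.zero,
    reg_back hd S, hw⟩, reg_proper hd S, reg_crit hd S⟩⟩

end

end Pool.Agent.Helper65.EN
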