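import Mathlib
import Pool.Agent.Helper65.EN.Null
import Pool.Agent.Helper65.EU.Radial
import Pool.Agent.Helper65.EU.Final

/-! Certified maps have Julia sets of area zero: the conclusion. -/

set_option autoImplicit false

open Topology Filter Metric Set MeasureTheory
open scoped OnePoint

namespace Pool.Agent.Helper65.EN

open Pool.Agent.H790R3.RB
open Pool.Agent.W364.NM (ap ad dt ad_ap ap_ad ap_smul ap_ne ap_eq_zero ap_zero' semi wr_conj exists_pr
  vne pr_csmul wr_eval)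
open Pool.Agent.Helper65.EU (Into Cert ND_of_sphere wr_smul_zero pol_inj)
open Pool.Agent.Helper114.Herman (IsRat fatou)
open Pool.Agent.K3h78.LF (Trap Reg Stay rg VV coe_mem_VV)

theorem fatou_conj {g : OnePoint ℂ → OnePoint ℂ} (h : OnePoint ℂ ≃ₜ OnePoint ℂ) {w : OnePoint ℂ}
    (hw : h w ∈ fatou g) : w ∈ fatou (fun z => h.symm (g (h z))) := by
  obtain ⟨U, hU, hU2⟩ := hw
  refine ⟨h ⁻¹' U, h.continuous.continuousAt.preimage_mem_nhds hU, ?_⟩
  intro y hy W hW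
  have hit : ∀ (k : ℕ) (z : OnePoint ℂ), (fun z => h.symm (g (h z)))^[k] z =
      h.symm (g^[k] (h z)) := by
    intro k
    induction k with
    | zero => intro z; simp
    | succ k ih =>
      intro z
      rw [Function.iterate_succ_apply', Function.iterate_succ_apply', ih]
      simp
  have h1 : (fun q : OnePoint ℂ × OnePoint ℂ => (h.symm q.1, h.symm q.2)) ⁻¹' W ∈
      𝓝ˢ (diagonal (OnePoint ℂ)) := by
    have h2 : Continuous (fun q : OnePoint ℂ × OnePoint ℂ => (h.symm q.1, h.symm q.2)) :=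
      (h.symm.continuous.comp continuous_fst).prodMk (h.symm.continuous.comp continuous_snd)
    have h3 : MapsTo (fun q : OnePoint ℂ × OnePoint ℂ => (h.symm q.1, h.symm q.2))
        (diagonal (OnePoint ℂ)) (diagonal (OnePoint ℂ)) := by
      rintro ⟨a, b⟩ hab
      have hab' : a = b := hab
      show h.symm a = h.symm b
      rw [hab']
    exact h2.tendsto_nhdsSet h3 hW
  have h4 := hU2 (h y) hy _ h1
  have h5 := h.continuous.continuousAt.eventually h4
  filter_upwards [h5] with z hz n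
  rw [hit, hit]
  exact hz n

theorem isRat_sp {d : ℕ} (hd : 1 ≤ d) {x : CV d} (hx : ND x) : IsRat (sp x) (pol x 0) (pol x 1) := by
  obtain ⟨h1, h2, -, -, h5⟩ := ((PQ SP) d hd).1 x hx
  refine ⟨(SP d x hd hx).1, h1, ?_, h5⟩
  intro h0
  rw [h0] at h1 h2
  have h3 : IsUnit (pol x 0) := isCoprime_zero_right.1 h1
  rw [Polynomial.natDegree_eq_zero_of_isUnit h3, Polynomial.natDegree_zero] at h2
  simp at h2
  omega

/-- the Julia set of a certified map is a null set, in good coordinates -/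
theorem setup_null {d : ℕ} (hd : 2 ≤ d) {s : Finset (ℂ × ℝ)} {x y : CV d}
    {H : OnePoint ℂ ≃ₜ OnePoint ℂ} {m : (ℂ × ℂ) × (ℂ × ℂ)} {c : ℂ} (S : Setup s x y H m c)
    (hm : m.2.1 ≠ 0) : volume {z : ℂ | (z : OnePoint ℂ) ∉ fatou (sp y)} = 0 := by
  obtain ⟨R, hT⟩ := trap hd S
  have hrat := isRat_sp (by omega) S.ndy
  have hinf : sp y (∞ : OnePoint ℂ) ∈ VV (XX s H) := by
    have h1 : sp y (∞ : OnePoint ℂ) ∈ H '' II s := y_maps hd S (image_mono (II_sub s) S.inf)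
    rintro ⟨w, hw, hw2⟩
    simp only at hw2
    rw [← hw2] at h1
    exact XX_closure h1 hw
  refine measure_mono_null (fun z hz => ?_) hT.null
  exact hT.toReg.julia hrat (XX_nonempty hm S) hinf hz

theorem cert_null {d : ℕ} (hd : 2 ≤ d) {s : Finset (ℂ × ℝ)} {x : CV d} (h : Cert s x) :
    volume {z : ℂ | (z : OnePoint ℂ) ∉ fatou (sp x)} = 0 := by
  obtain ⟨i, hi, hρ⟩ := disc_exists hd h
  have hρ2 : ((i.2 / 2 : ℝ) : ℂ) ≠ 0 := by
    rw [Complex.ofReal_ne_zero]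
    positivity
  obtain ⟨m, hm⟩ : ∃ m : (ℂ × ℂ) × (ℂ × ℂ), m = ((1, -(i.1 + ((i.2 / 2 : ℝ) : ℂ))), (1, -i.1)) :=
    ⟨_, rfl⟩
  have hdt : dt m = ((i.2 / 2 : ℝ) : ℂ) := by
    rw [hm]
    simp only [dt]
    ring
  have hdt0 : dt m ≠ 0 := by rw [hdt]; exact hρ2
  have hda : dt (ad m) ≠ 0 := by
    have : dt (ad m) = dt m := by simp only [dt, ad]; ring
    rw [this]
    exact hdt0
  obtain ⟨cj, -, -, -, -, hcj⟩ := CJ d
  have hx : ND x := ND_of_sphere h.1
  set y : CV d := cj m x with hy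
  have hyF : ∀ p, hF y p = ap m (hF x (ap (ad m) p)) := by
    intro p
    rw [hy, hcj]
    have e1 : ap (ad m) p = (m.2.2 * p.1 - m.1.2 * p.2, m.1.1 * p.2 - m.2.1 * p.1) := by
      apply Prod.ext
      · simp only [ap, ad]; ring
      · simp only [ap, ad]; ring
    rw [e1]
    rfl
  have hfy : ∀ p, hF y (ap m p) = (dt m) ^ d • ap m (hF x p) := by
    intro p
    rw [hyF, ap_ad, hF_smul, ap_smul]
  have hndy : ND y := by
    intro q hq
    rw [hyF] at hq
    have h1 := ap_eq_zero hdt0 hq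
    exact ap_eq_zero hda (hx _ h1)
  have hdet : m.1.1 * m.2.2 - m.1.2 * m.2.1 ≠ 0 := hdt0
  obtain ⟨H, hH, -⟩ := (MOB SP) m.1.1 m.1.2 m.2.1 m.2.2 hdet
  have hdet' : (ad m).1.1 * (ad m).2.2 - (ad m).1.2 * (ad m).2.1 ≠ 0 := hda
  obtain ⟨H', hH', hnull⟩ := (MOB SP) (ad m).1.1 (ad m).1.2 (ad m).2.1 (ad m).2.2 hdet'
  have hH2 : ∀ p : ℂ × ℂ, p ≠ 0 → H (pr p) = pr (ap m p) := hH
  have hH2' : ∀ p : ℂ × ℂ, p ≠ 0 → H' (pr p) = pr (ap (ad m) p) := hH'
  have hHH : ∀ z, H' (H z) = z := by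
    intro z
    obtain ⟨p, hp, rfl⟩ := exists_pr z
    rw [hH2 p hp, hH2' _ (ap_ne hdt0 hp), ap_ad, pr_csmul hdt0]
  have hpr1 : ∀ a : ℂ, pr ((a, 1) : ℂ × ℂ) = (a : OnePoint ℂ) := by
    intro a
    rw [Pool.Agent.H790R3.RB.SP.pr_ne (by simp)]
    simp
  have hball : ∀ a : ℂ, ‖a - i.1‖ < i.2 → (a : OnePoint ℂ) ∈ II s := by
    intro a ha
    unfold II
    rw [mem_iUnion₂]
    exact ⟨i, hi, a, by rw [mem_ball, dist_eq_norm]; exact ha, rfl⟩
  have hS : Setup s x y H m ((dt m) ^ d) := by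
    refine ⟨h, pow_ne_zero _ hdt0, hdt0, hfy, hH2, hndy, ?_, ?_⟩
    · refine ⟨(i.1 : OnePoint ℂ), hball _ (by rw [sub_self, norm_zero]; exact hρ), ?_⟩
      rw [← hpr1, hH2 _ (vne _), Pool.Agent.H790R3.RB.SP.pr_zero]
      rw [hm]
      simp only [ap]
      ring
    · refine ⟨((i.1 + ((i.2 / 2 : ℝ) : ℂ) : ℂ) : OnePoint ℂ), hball _ ?_, ?_⟩
      · rw [add_sub_cancel_left, Complex.norm_real, Real.norm_of_nonneg (by positivity)]
        linarith
      · have e1 : ap m (i.1 + ((i.2 / 2 : ℝ) : ℂ), 1) = (0, ((i.2 / 2 : ℝ) : ℂ)) := by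
          rw [hm]
          apply Prod.ext
          · simp only [ap]; ring
          · simp only [ap]; ring
        rw [← hpr1, hH2 _ (vne _), e1, Pool.Agent.H790R3.RB.SP.pr_ne hρ2, zero_div]
  have h1 := setup_null hd hS (by rw [hm]; exact one_ne_zero)
  have h2 := hnull (fatou (sp y))ᶜ h1
  refine measure_mono_null (fun z hz => ?_) h2
  have hz' : (z : OnePoint ℂ) ∉ fatou (sp x) := hz
  show (z : OnePoint ℂ) ∈ H' '' (fatou (sp y))ᶜ
  refine ⟨H z, ?_, hHH _⟩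
  intro h3
  apply hz'
  have h4 := fatou_conj H h3
  have h5 : (fun z => H.symm (sp y (H z))) = sp x := by
    funext w
    rw [sy hd hS, H.symm_apply_apply]
  rwa [h5] at h4

/-- the certified maps have Julia sets of area zero -/
theorem gset_null {d : ℕ} (hd : 2 ≤ d) {x : CV d} (hx : x ∈ Pool.Agent.Helper65.EU.Gset d) :
    (∃ f, IsRat f (pol x 0) (pol x 1)) ∧ max (pol x 0).natDegree (pol x 1).natDegree = d ∧
    ∀ f, IsRat f (pol x 0) (pol x 1) → volume {z : ℂ | (z : OnePoint ℂ) ∉ fatou f} = 0 := by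
  obtain ⟨s, hs⟩ := mem_iUnion.1 hx
  have hND := ND_of_sphere hs.1
  obtain ⟨h1, h2, -⟩ := ((PQ SP) d (by omega)).1 x hND
  refine ⟨⟨_, isRat_sp (by omega) hND⟩, h2, ?_⟩
  intro f hf
  obtain ⟨y, -, hy0, hy1, hy2⟩ := ((PQ SP) d (by omega)).2 _ _ h1 h2
  have hxy : y = x := by
    apply pol_inj
    intro i
    fin_cases i
    · exact hy0
    · exact hy1
  rw [hy2 f hf.cont hf.eval, hxy]
  exact cert_null hd hs

end Pool.Agent.Helper65.EN
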